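import Pool.Agent.H41.AUG.Stmts2

/-!
# AUG2-MAIN: the augmentation lemma (helper670, for helper41)
-/

set_option autoImplicit false
set_option linter.unusedSectionVars false
set_option linter.unusedVariables false

namespace Pool.Agent.H670.AUG

open Pool.Agent.H41.AUG

section Basic

variable {n : ℕ}

theorem mem_unc {ι : Type} [Fintype ι] (f : ι → Equiv.Perm (Fin n)) (p : Cell n) :
    p ∈ unc f ↔ ∀ u, f u p.1 ≠ p.2 := by
  unfold unc
  rw [Finset.mem_filter]
  exact ⟨fun h => h.2, fun h => ⟨Finset.mem_univ _, h⟩⟩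

theorem mem_gr (f : Equiv.Perm (Fin n)) (p : Cell n) : p ∈ gr f ↔ f p.1 = p.2 := by
  unfold gr
  rw [Finset.mem_image]
  constructor
  · rintro ⟨i, -, rfl⟩
    rfl
  · intro h
    exact ⟨p.1, Finset.mem_univ _, Prod.ext rfl h⟩

theorem mem_tr (U : Finset (Cell n)) (p : Cell n) : p ∈ tr U ↔ p.swap ∈ U := by
  unfold tr
  rw [Finset.mem_image]
  constructor
  · rintro ⟨q, hq, rfl⟩
    rw [Prod.swap_swap]
    exact hq
  · intro h
    exact ⟨p.swap, h, Prod.swap_swap p⟩

theorem mem_nbr (U : Finset (Cell n)) (Z : Finset (Fin n)) (c : Fin n) :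
    c ∈ nbr U Z ↔ ∃ s ∈ Z, (s, c) ∈ U := by
  unfold nbr
  rw [Finset.mem_filter]
  exact ⟨fun h => h.2, fun h => ⟨Finset.mem_univ _, h⟩⟩

theorem nbr_mono {U V : Finset (Cell n)} (h : U ⊆ V) (Z : Finset (Fin n)) :
    nbr U Z ⊆ nbr V Z := by
  intro c hc
  rw [mem_nbr] at hc ⊢
  obtain ⟨s, h1, h2⟩ := hc
  exact ⟨s, h1, h h2⟩

theorem defLe_mono {U V : Finset (Cell n)} {m : ℕ} (h : U ⊆ V) (hU : DefLe U m) :
    DefLe V m := fun Z =>
  (hU Z).trans (Nat.add_le_add_right (Finset.card_le_card (nbr_mono h Z)) m)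

theorem tr_unc {ι : Type} [Fintype ι] (f : ι → Equiv.Perm (Fin n)) :
    tr (unc f) = unc (fun u => (f u)⁻¹) := by
  ext p
  rw [mem_tr, mem_unc, mem_unc]
  refine forall_congr' fun u => not_congr ?_
  rw [Equiv.Perm.inv_eq_iff_eq]
  exact eq_comm

theorem tr_sdiff (U V : Finset (Cell n)) : tr (U \ V) = tr U \ tr V := by
  ext p
  rw [mem_tr, Finset.mem_sdiff, Finset.mem_sdiff, mem_tr, mem_tr]

theorem gr_inv (g : Equiv.Perm (Fin n)) : gr g⁻¹ = tr (gr g) := by
  ext p
  rw [mem_gr, mem_tr, mem_gr, Equiv.Perm.inv_eq_iff_eq]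
  exact eq_comm

theorem tr_subset {U V : Finset (Cell n)} (h : U ⊆ V) : tr U ⊆ tr V := by
  intro p hp
  rw [mem_tr] at hp ⊢
  exact h hp

theorem tr_disjoint {U V : Finset (Cell n)} (h : Disjoint U V) : Disjoint (tr U) (tr V) := by
  rw [Finset.disjoint_left] at h ⊢
  intro p hp hp'
  rw [mem_tr] at hp hp'
  exact h hp hp'

theorem tr_card (U : Finset (Cell n)) : (tr U).card = U.card :=
  Finset.card_image_of_injective _ Prod.swap_injective

theorem tr_match {M : Finset (Cell n)} (h : IsMatch M) : IsMatch (tr M) := by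
  constructor
  · intro p hp q hq hpq
    rw [mem_tr] at hp hq
    exact Prod.swap_injective (h.2 _ hp _ hq hpq)
  · intro p hp q hq hpq
    rw [mem_tr] at hp hq
    exact Prod.swap_injective (h.1 _ hp _ hq hpq)

theorem rowGe_unc {ι : Type} [Fintype ι] (f : ι → Equiv.Perm (Fin n)) :
    RowGe (unc f) (n - Fintype.card ι) := by
  intro s
  have h1 : ((Finset.univ.image fun u => f u s)ᶜ : Finset (Fin n)).card ≤
      ((unc f).filter fun p => p.1 = s).card := by
    apply Finset.card_le_card_of_injOn (fun c => (s, c))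
    · intro c hc
      rw [Finset.mem_coe, Finset.mem_compl, Finset.mem_image, not_exists] at hc
      rw [Finset.mem_coe, Finset.mem_filter, mem_unc]
      exact ⟨fun u h => hc u ⟨Finset.mem_univ _, h⟩, rfl⟩
    · intro c _ c' _ h
      exact congrArg Prod.snd h
  have h2 : (Finset.univ.image fun u => f u s).card ≤ Fintype.card ι :=
    Finset.card_image_le
  rw [Finset.card_compl, Fintype.card_fin] at h1
  omega

theorem rowGe_sdiff {A M : Finset (Cell n)} {d : ℕ} (hA : RowGe A d) (hM : IsMatch M) :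
    RowGe (A \ M) (d - 1) := by
  intro s
  have h1 : ((A \ M).filter fun p => p.1 = s) =
      (A.filter fun p => p.1 = s) \ (M.filter fun p => p.1 = s) := by
    ext p
    simp only [Finset.mem_filter, Finset.mem_sdiff]
    tauto
  have h2 : (M.filter fun p => p.1 = s).card ≤ 1 := by
    rw [Finset.card_le_one]
    intro p hp q hq
    rw [Finset.mem_filter] at hp hq
    exact hM.1 p hp.1 q hq.1 (hp.2.trans hq.2.symm)
  rw [h1]
  have h3 := Finset.le_card_sdiff (M.filter fun p => p.1 = s) (A.filter fun p => p.1 = s)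
  have h4 := hA s
  omega

theorem colGe_sdiff {A M : Finset (Cell n)} {d : ℕ} (hA : ColGe A d) (hM : IsMatch M) :
    ColGe (A \ M) (d - 1) := by
  intro s
  have h1 : ((A \ M).filter fun p => p.2 = s) =
      (A.filter fun p => p.2 = s) \ (M.filter fun p => p.2 = s) := by
    ext p
    simp only [Finset.mem_filter, Finset.mem_sdiff]
    tauto
  have h2 : (M.filter fun p => p.2 = s).card ≤ 1 := by
    rw [Finset.card_le_one]
    intro p hp q hq
    rw [Finset.mem_filter] at hp hq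
    exact hM.2 p hp.1 q hq.1 (hp.2.trans hq.2.symm)
  rw [h1]
  have h3 := Finset.le_card_sdiff (M.filter fun p => p.2 = s) (A.filter fun p => p.2 = s)
  have h4 := hA s
  omega

/-- a tight set stays tight if the deficiency does not increase -/
theorem tight_mono {U V : Finset (Cell n)} {m : ℕ} {Z : Finset (Fin n)} (h : V ⊆ U)
    (hV : DefLe V m) (hZ : Tight U m Z) : Tight V m Z := by
  have h1 := hV Z
  have h2 := Finset.card_le_card (nbr_mono h Z)
  unfold Tight at hZ ⊢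
  omega

end Basic

section Count

variable {n : ℕ} {ι : Type} [Fintype ι] [DecidableEq ι]

/-- the cells of the rectangle covered exactly once -/
def PP (f : ι → Equiv.Perm (Fin n)) (X Y : Finset (Fin n)) : Finset (Cell n) :=
  (X ×ˢ Y).filter fun p => (Finset.univ.filter fun u => f u p.1 = p.2).card = 1

theorem mem_PP (f : ι → Equiv.Perm (Fin n)) (X Y : Finset (Fin n)) (p : Cell n) :
    p ∈ PP f X Y ↔ (p.1 ∈ X ∧ p.2 ∈ Y) ∧
      (Finset.univ.filter fun u => f u p.1 = p.2).card = 1 := by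
  unfold PP
  rw [Finset.mem_filter, Finset.mem_product]

theorem PP_swap (f : ι → Equiv.Perm (Fin n)) (X Y : Finset (Fin n)) :
    (PP (fun u => (f u)⁻¹) Y X).card = (PP f X Y).card := by
  have h : PP (fun u => (f u)⁻¹) Y X = (PP f X Y).image Prod.swap := by
    ext p
    rw [Finset.mem_image, mem_PP]
    have e : (Finset.univ.filter fun u => (f u)⁻¹ p.1 = p.2) =
        Finset.univ.filter fun u => f u p.2 = p.1 := by
      refine Finset.filter_congr fun u _ => ?_
      rw [Equiv.Perm.inv_eq_iff_eq]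
      exact eq_comm
    rw [e]
    constructor
    · rintro ⟨⟨h1, h2⟩, h3⟩
      exact ⟨p.swap, (mem_PP _ _ _ _).2 ⟨⟨h2, h1⟩, h3⟩, Prod.swap_swap p⟩
    · rintro ⟨q, hq, rfl⟩
      obtain ⟨⟨h1, h2⟩, h3⟩ := (mem_PP _ _ _ _).1 hq
      exact ⟨⟨h2, h1⟩, h3⟩
  rw [h, Finset.card_image_of_injective _ Prod.swap_injective]

/-- some permutation has many of the cells covered exactly once -/
theorem exists_big (f : ι → Equiv.Perm (Fin n)) (X Y : Finset (Fin n)) (b : ι → ℕ)
    (h : ∑ u, b u < (PP f X Y).card) :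
    ∃ u, b u < ((PP f X Y).filter fun p => f u p.1 = p.2).card := by
  by_contra hcon
  push Not at hcon
  have h1 : PP f X Y ⊆
      Finset.univ.biUnion fun u => (PP f X Y).filter fun p => f u p.1 = p.2 := by
    intro p hp
    have h2 := ((mem_PP _ _ _ _).1 hp).2
    obtain ⟨u, hu⟩ := Finset.card_eq_one.1 h2
    have h3 : u ∈ Finset.univ.filter fun u => f u p.1 = p.2 := by
      rw [hu]
      exact Finset.mem_singleton_self u
    rw [Finset.mem_biUnion]
    exact ⟨u, Finset.mem_univ _, Finset.mem_filter.2 ⟨hp, (Finset.mem_filter.1 h3).2⟩⟩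
  have h4 := (Finset.card_le_card h1).trans Finset.card_biUnion_le
  have h5 := Finset.sum_le_sum (s := Finset.univ) fun u _ => hcon u
  omega

end Count

/-- **AUG2-MAIN** -/
theorem aug2 (hh : S_HALLD) (ht : S_TIGHT) (ha : S_ADD) (hf : S_FORCE2) (hd : S_DEL)
    (hn : S_NONROB) (hw : S_WEAK) (hc : S_CNT) (har : S_ARITH2) : S_AUG2 := by
  classical
  intro n m x ι _ _ f A y hx hxn h3x hfA hrow hcol hy hdef htight hsum
  obtain ⟨Z, hZ⟩ := htight
  obtain ⟨M, hMU, hM, hMc⟩ := (hh n (m + 1) (unc f)).1 hdef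
  obtain ⟨⟨S, hS⟩, hdef', ⟨T, hT⟩⟩ := ht n (m + 1) (unc f) hdef ⟨Z, hZ⟩
  -- the least tight sets
  have hdisj : ∀ c ∈ T, c ∉ nbr (unc f) S := by
    intro c hcT hcS
    rw [mem_nbr] at hcS
    obtain ⟨s, hsS, hsc⟩ := hcS
    have h1 := ha n m (unc f) S T s c hdef hS hT hsS hcT
    rw [Finset.insert_eq_of_mem hsc] at h1
    have h2 := h1 Z
    unfold Tight at hZ
    omega
  have hdisj' : ∀ s ∈ S, s ∉ nbr (tr (unc f)) T := by
    intro s hsS hsT
    rw [mem_nbr] at hsT
    obtain ⟨c, hcT, hcs⟩ := hsT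
    rw [mem_tr] at hcs
    exact hdisj c hcT ((mem_nbr _ _ _).2 ⟨s, hsS, hcs⟩)
  have hcardT : T.card + (nbr (unc f) S).card ≤ n := by
    have h1 : Disjoint T (nbr (unc f) S) := Finset.disjoint_left.2 hdisj
    rw [← Finset.card_union_of_disjoint h1]
    exact (Finset.card_le_univ _).trans (Fintype.card_fin n).le
  have hStight : S.card = (nbr (unc f) S).card + (m + 1) := hS.1
  have hTtight : T.card = (nbr (tr (unc f)) T).card + (m + 1) := hT.1
  obtain ⟨e, he⟩ : ∃ e, e = n - x := ⟨_, rfl⟩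
  have hrowU : RowGe (unc f) e := by
    rw [he, ← hx]
    exact rowGe_unc f
  have hrowT : RowGe (tr (unc f)) e := by
    rw [he, ← hx, tr_unc]
    exact rowGe_unc _
  have hM' : IsMatch (tr M) := tr_match hM
  have hMU' : tr M ⊆ tr (unc f) := tr_subset hMU
  have hMc' : n ≤ (tr M).card + (m + 1) := by rw [tr_card]; exact hMc
  -- robust rows and columns
  obtain ⟨Sr, hSr⟩ : ∃ Sr, Sr = S.filter fun s => Rob (unc f) M (m + 1) s := ⟨_, rfl⟩
  obtain ⟨Tr, hTr⟩ : ∃ Tr, Tr = T.filter fun s => Rob (tr (unc f)) (tr M) (m + 1) s := ⟨_, rfl⟩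
  have hSrS : Sr ⊆ S := by rw [hSr]; exact Finset.filter_subset _ _
  have hTrT : Tr ⊆ T := by rw [hTr]; exact Finset.filter_subset _ _
  obtain ⟨nS1, nS2⟩ := hn n (m + 1) e (unc f) M S (S \ Sr) (by omega) hdef hS hMU hM hMc hrowU
    Finset.sdiff_subset (by
      intro s hs hrob
      rw [Finset.mem_sdiff, hSr, Finset.mem_filter] at hs
      exact hs.2 ⟨hs.1, hrob⟩)
  obtain ⟨nT1, nT2⟩ := hn n (m + 1) e (tr (unc f)) (tr M) T (T \ Tr) (by omega) hdef' hT hMU' hM'
    hMc' hrowT Finset.sdiff_subset (by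
      intro s hs hrob
      rw [Finset.mem_sdiff, hTr, Finset.mem_filter] at hs
      exact hs.2 ⟨hs.1, hrob⟩)
  obtain ⟨K, hK1, hK2, hK3⟩ := hw n (m + 1) e (unc f) M S (by omega) hdef hS hMU hM hMc hrowU
  obtain ⟨K', hK1', hK2', hK3'⟩ := hw n (m + 1) e (tr (unc f)) (tr M) T (by omega) hdef' hT hMU'
    hM' hMc' hrowT
  rw [← hSr] at hK2 hK3
  rw [← hTr] at hK2' hK3'
  have hc1 := hc n (m + 1) x ι f S K Sr Tr hx hSrS hStight hK1 hK2 hK3
    (fun c hcT => hdisj c (hTrT hcT))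
  rw [tr_unc] at hTtight hK1' hK3' hdisj'
  have hc2 := hc n (m + 1) x ι (fun u => (f u)⁻¹) T K' Tr Sr hx hTrT hTtight hK1' hK2' hK3'
    (fun s hsS => hdisj' s (hSrS hsS))
  obtain ⟨c1a, c1b⟩ := hc1
  obtain ⟨c2a, c2b⟩ := hc2
  have c1b' : (Sr.card : ℤ) * ((Tr.card : ℤ) - Sr.card + ((n : ℤ) - x) + ((m + 1 : ℕ) : ℤ)) -
      K.card ≤ ((PP f Sr Tr).card : ℤ) := c1b
  have c2b' : (Tr.card : ℤ) * ((Sr.card : ℤ) - Tr.card + ((n : ℤ) - x) + ((m + 1 : ℕ) : ℤ)) -
      K'.card ≤ ((PP f Sr Tr).card : ℤ) := by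
    rw [← PP_swap]
    exact c2b
  have hcS : (S \ Sr).card + Sr.card = S.card := Finset.card_sdiff_add_card_eq_card hSrS
  have hcT : (T \ Tr).card + Tr.card = T.card := Finset.card_sdiff_add_card_eq_card hTrT
  have hKS : K.card = (S \ Sr).card := by omega
  have hKT : K'.card = (T \ Tr).card := by omega
  have hez : (e : ℤ) = (n : ℤ) - x := by
    rw [he]
    omega
  have hS1 : (S.card : ℤ) = Sr.card + (S \ Sr).card := by
    rw [← hcS]; push_cast; ring
  have hT1 : (T.card : ℤ) = Tr.card + (T \ Tr).card := by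
    rw [← hcT]; push_cast; ring
  rw [hKS] at c1a c1b'
  rw [hKT] at c2a c2b'
  rw [hS1] at nS2
  rw [hT1] at nT2
  rw [← hez] at c1a c1b' c2a c2b' hsum
  have hkey := har e (2 * x - n) ((m + 1 : ℕ) : ℤ) Sr.card Tr.card (S \ Sr).card (T \ Tr).card
    (PP f Sr Tr).card (by omega) (by omega) (by omega) (by omega) (by omega) (by omega)
    (by omega) (by omega) (by omega) (by omega)
    (by linarith [nS2]) (by linarith [nT2]) (by linarith [c1a]) (by linarith [c2a])
    (by linarith [c1b']) (by linarith [c2b'])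
  have hlt : ∑ u, min x (2 * y u - n) < (PP f Sr Tr).card := by
    have h1 : ((∑ u, min x (2 * y u - n) : ℕ) : ℤ) < ((PP f Sr Tr).card : ℤ) := by
      refine lt_of_lt_of_le hsum ?_
      linarith
    exact_mod_cast h1
  obtain ⟨u, hu⟩ := exists_big f Sr Tr _ hlt
  obtain ⟨Pu, hPu⟩ : ∃ Pu, Pu = (PP f Sr Tr).filter fun p => f u p.1 = p.2 := ⟨_, rfl⟩
  rw [← hPu] at hu
  obtain ⟨Φ, hΦ⟩ : ∃ Φ, Φ = Pu.image Prod.fst := ⟨_, rfl⟩
  have hinj : Set.InjOn (Prod.fst : Cell n → Fin n) (Pu : Set (Cell n)) := by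
    intro p hp q hq hpq
    rw [Finset.mem_coe, hPu, Finset.mem_filter] at hp hq
    refine Prod.ext hpq ?_
    rw [← hp.2, ← hq.2, hpq]
  have hΦc : Φ.card = Pu.card := by
    rw [hΦ]
    exact Finset.card_image_of_injOn hinj
  have hΦS : Φ ⊆ Sr := by
    intro s hs
    rw [hΦ, Finset.mem_image] at hs
    obtain ⟨p, hp, rfl⟩ := hs
    rw [hPu, Finset.mem_filter] at hp
    exact ((mem_PP _ _ _ _).1 hp.1).1.1
  have hPx : Pu.card ≤ x := by
    rw [← hΦc]
    have h1 := Finset.card_le_card (hΦS.trans hSrS)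
    omega
  have hPy : 2 * y u - n < Pu.card := by
    omega
  have hδ : 2 ≤ n - y u := by omega
  have hgrA : gr (f u) ⊆ A u \ M := by
    intro p hp
    rw [Finset.mem_sdiff]
    refine ⟨hfA u hp, fun hpM => ?_⟩
    have h1 := (mem_unc f p).1 (hMU hpM) u
    exact h1 ((mem_gr _ _).1 hp)
  have hrow' : RowGe (A u \ M) (n - y u) := by
    have h1 := rowGe_sdiff (hrow u) hM
    have h2 : n + 1 - y u - 1 = n - y u := by omega
    rwa [h2] at h1
  have hcol' : ColGe (A u \ M) (n - y u) := by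
    have h1 := colGe_sdiff (hcol u) hM
    have h2 : n + 1 - y u - 1 = n - y u := by omega
    rwa [h2] at h1
  have hex : ∃ s ∈ Φ, ∃ g : Equiv.Perm (Fin n), gr g ⊆ A u \ M ∧ g s ≠ f u s := by
    by_contra hcon
    push Not at hcon
    have hne : Φ.Nonempty := by
      rw [← Finset.card_pos, hΦc]
      omega
    have h1 := hf n (n - y u) (A u \ M) (f u) hδ hgrA hrow' hcol' Φ hne hcon
    rw [hΦc] at h1
    omega
  obtain ⟨s, hsΦ, g, hg, hgs⟩ := hex
  rw [hΦ, Finset.mem_image] at hsΦ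
  obtain ⟨p, hp, hps⟩ := hsΦ
  rw [hPu, Finset.mem_filter] at hp
  obtain ⟨hpP, hpu⟩ := hp
  obtain ⟨⟨hp1, hp2⟩, hp3⟩ := (mem_PP _ _ _ _).1 hpP
  rw [← hps] at hgs
  -- deleting the graph of `g`
  have hgA : gr g ⊆ A u := hg.trans Finset.sdiff_subset
  have hgM : Disjoint (gr g) M := by
    rw [Finset.disjoint_left]
    intro q hq hqM
    exact (Finset.mem_sdiff.1 (hg hq)).2 hqM
  have hMV : M ⊆ unc f \ gr g := by
    intro q hq
    rw [Finset.mem_sdiff]
    exact ⟨hMU hq, fun hq' => (Finset.disjoint_left.1 hgM) hq' hq⟩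
  have hdefV : DefLe (unc f \ gr g) (m + 1) :=
    (hh n (m + 1) (unc f \ gr g)).2.1 M hMV hM hMc
  have htightV : Tight (unc f \ gr g) (m + 1) Z := tight_mono Finset.sdiff_subset hdefV hZ
  obtain ⟨⟨S', hS'⟩, -, ⟨T', hT'⟩⟩ := ht n (m + 1) (unc f \ gr g) hdefV ⟨Z, htightV⟩
  have hsS' : p.1 ∈ S' := by
    rw [hSr, Finset.mem_filter] at hp1
    exact hp1.2 g hgM S' hS'
  have hcT' : p.2 ∈ T' := by
    rw [hTr, Finset.mem_filter] at hp2
    apply hp2.2 g⁻¹ ?_ T'
    · rw [gr_inv, ← tr_sdiff]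
      exact hT'
    · rw [gr_inv]
      exact tr_disjoint hgM
  have hfin := ha n m (unc f \ gr g) S' T' p.1 p.2 hdefV hS' hT' hsS' hcT'
  refine ⟨u, g, hgA, defLe_mono ?_ hfin⟩
  intro q hq
  rw [Finset.mem_insert] at hq
  rw [mem_unc]
  intro v
  by_cases hv : v = u
  · subst hv
    rw [Function.update_self]
    rcases hq with hq | hq
    · rw [hq]
      show g p.1 ≠ p.2
      rw [← hpu]
      exact hgs
    · rw [Finset.mem_sdiff] at hq
      intro h
      exact hq.2 ((mem_gr _ _).2 h)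
  · rw [Function.update_of_ne hv]
    rcases hq with hq | hq
    · rw [hq]
      show f v p.1 ≠ p.2
      intro h
      apply hv
      rw [Finset.card_eq_one] at hp3
      obtain ⟨w, hw'⟩ := hp3
      have h1 : v ∈ Finset.univ.filter fun u => f u p.1 = p.2 :=
        Finset.mem_filter.2 ⟨Finset.mem_univ _, h⟩
      have h2 : u ∈ Finset.univ.filter fun u => f u p.1 = p.2 :=
        Finset.mem_filter.2 ⟨Finset.mem_univ _, hpu⟩
      rw [hw', Finset.mem_singleton] at h1 h2
      rw [h1, h2]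
    · rw [Finset.mem_sdiff] at hq
      exact (mem_unc f q).1 hq.1 v

end Pool.Agent.H670.AUG
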